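import Mathlib

/-!
# The Whitney `C^∞` topology on the space of smooth maps between normed spaces
-/

set_option autoImplicit false

namespace Pool.Agent.Whitney

open scoped ContDiff

variable (E F : Type*) [NormedAddCommGroup E] [NormedSpace ℝ E] [NormedAddCommGroup F]
  [NormedSpace ℝ F]

/-- The set `C^∞(E, F)` of smooth maps from `E` to `F`. -/
def SmoothMap : Type _ := {f : E → F // ContDiff ℝ ∞ f}

variable {E F}

/-- The basic neighbourhood of `f` given by an order `k` and a function `ε` on `E`: all smooth `g`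
such that the derivatives of `g - f` of order `0, …, k` have norm less than `ε x` at every
point `x`. -/
def basicNhd (f : SmoothMap E F) (k : ℕ) (ε : E → ℝ) : Set (SmoothMap E F) :=
  {g | ∀ x, ∀ j ≤ k, ‖iteratedFDeriv ℝ j (fun y => g.1 y - f.1 y) x‖ < ε x}

/-- The Whitney `C^∞` topology (for finite-dimensional `E`): a set `S` of smooth maps is open if
with every `f` it contains a basic neighbourhood of `f` given by some order `k` and some
continuous positive function `ε`. -/
instance whitneyTopology : TopologicalSpace (SmoothMap E F) where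
  IsOpen S := ∀ f ∈ S, ∃ (k : ℕ) (ε : E → ℝ), Continuous ε ∧ (∀ x, 0 < ε x) ∧
    basicNhd f k ε ⊆ S
  isOpen_univ := fun _ _ => ⟨0, fun _ => 1, continuous_const, fun _ => one_pos,
    Set.subset_univ _⟩
  isOpen_inter := by
    intro S T hS hT f hf
    obtain ⟨k₁, ε₁, hc₁, hp₁, h₁⟩ := hS f hf.1
    obtain ⟨k₂, ε₂, hc₂, hp₂, h₂⟩ := hT f hf.2
    refine ⟨max k₁ k₂, fun x => min (ε₁ x) (ε₂ x), hc₁.min hc₂, fun x => lt_min (hp₁ x) (hp₂ x),
      fun g hg => ⟨h₁ fun x j hj => ?_, h₂ fun x j hj => ?_⟩⟩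
    · exact (hg x j (hj.trans (le_max_left _ _))).trans_le (min_le_left _ _)
    · exact (hg x j (hj.trans (le_max_right _ _))).trans_le (min_le_right _ _)
  isOpen_sUnion := by
    intro 𝒮 h𝒮 f ⟨S, hS, hf⟩
    obtain ⟨k, ε, hc, hp, h⟩ := h𝒮 S hS f hf
    exact ⟨k, ε, hc, hp, h.trans (Set.subset_sUnion_of_mem hS)⟩

end Pool.Agent.Whitney
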