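import Mathlib
import Pool.Agent.Whitney.Defs

/-!
# The Whitney `C^∞` topology is a Baire topology
-/

set_option autoImplicit false

namespace Pool.Agent.Whitney

open scoped ContDiff
open Set Filter Topology

variable {E F : Type*} [NormedAddCommGroup E] [NormedSpace ℝ E] [NormedAddCommGroup F]
  [NormedSpace ℝ F]

theorem isOpen_iff' {S : Set (SmoothMap E F)} : IsOpen S ↔ ∀ f ∈ S, ∃ (k : ℕ) (ε : E → ℝ),
    Continuous ε ∧ (∀ x, 0 < ε x) ∧ basicNhd f k ε ⊆ S := Iff.rfl

theorem SmoothMap.sub_contDiff (g f : SmoothMap E F) : ContDiff ℝ ∞ (fun y => g.1 y - f.1 y) :=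
  g.2.sub f.2

theorem mem_basicNhd_self (f : SmoothMap E F) (k : ℕ) {ε : E → ℝ} (hε : ∀ x, 0 < ε x) :
    f ∈ basicNhd f k ε := by
  intro x j _
  have : (fun y => f.1 y - f.1 y) = fun _ => (0:F) := by funext y; simp
  rw [this, iteratedFDeriv_fun_zero]
  simpa using hε x

theorem iteratedFDeriv_sub_add (a b c : SmoothMap E F) (j : ℕ) (x : E) :
    iteratedFDeriv ℝ j (fun y => a.1 y - c.1 y) x =
      iteratedFDeriv ℝ j (fun y => a.1 y - b.1 y) x +
      iteratedFDeriv ℝ j (fun y => b.1 y - c.1 y) x := by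
  have h : (fun y => a.1 y - c.1 y) = (fun y => a.1 y - b.1 y) + fun y => b.1 y - c.1 y := by
    funext y; simp
  rw [h]
  have hj : (j : WithTop ℕ∞) ≤ ∞ := by exact_mod_cast le_top
  exact iteratedFDeriv_add_apply ((a.sub_contDiff b).of_le hj).contDiffAt
    ((b.sub_contDiff c).of_le hj).contDiffAt

theorem continuous_norm_iteratedFDeriv (g f : SmoothMap E F) (j : ℕ) :
    Continuous fun x => ‖iteratedFDeriv ℝ j (fun y => g.1 y - f.1 y) x‖ := by
  have hj : (j : WithTop ℕ∞) ≤ ∞ := by exact_mod_cast le_top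
  exact ((g.sub_contDiff f).continuous_iteratedFDeriv hj).norm

/-- Basic neighbourhoods are open. -/
theorem isOpen_basicNhd (f : SmoothMap E F) (k : ℕ) {ε : E → ℝ} (hc : Continuous ε)
    (_hp : ∀ x, 0 < ε x) : IsOpen (basicNhd f k ε) := by
  rw [isOpen_iff']
  intro g hg
  set d : E → ℝ := fun x => (Finset.range (k + 1)).sup' ⟨0, by simp⟩
    fun j => ‖iteratedFDeriv ℝ j (fun y => g.1 y - f.1 y) x‖ with hd
  have hdc : Continuous d := by
    apply Continuous.finset_sup'_apply
    intro j _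
    exact continuous_norm_iteratedFDeriv g f j
  have hdle : ∀ x, ∀ j ≤ k, ‖iteratedFDeriv ℝ j (fun y => g.1 y - f.1 y) x‖ ≤ d x := by
    intro x j hj
    exact Finset.le_sup' (fun j => ‖iteratedFDeriv ℝ j (fun y => g.1 y - f.1 y) x‖)
      (Finset.mem_range.2 (by omega))
  have hdlt : ∀ x, d x < ε x := by
    intro x
    refine (Finset.sup'_lt_iff _).2 ?_
    intro j hj
    exact hg x j (by have := Finset.mem_range.1 hj; omega)
  refine ⟨k, fun x => ε x - d x, hc.sub hdc, fun x => sub_pos.2 (hdlt x), ?_⟩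
  intro h hh x j hj
  rw [iteratedFDeriv_sub_add h g f]
  calc _ ≤ ‖iteratedFDeriv ℝ j (fun y => h.1 y - g.1 y) x‖ +
        ‖iteratedFDeriv ℝ j (fun y => g.1 y - f.1 y) x‖ := norm_add_le _ _
    _ < (ε x - d x) + d x := add_lt_add_of_lt_of_le (hh x j hj) (hdle x j hj)
    _ = ε x := by ring

/-- The closed version of the basic neighbourhoods. -/
def closedNhd (f : SmoothMap E F) (k : ℕ) (ε : E → ℝ) : Set (SmoothMap E F) :=
  {g | ∀ x, ∀ j ≤ k, ‖iteratedFDeriv ℝ j (fun y => g.1 y - f.1 y) x‖ ≤ ε x}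

/-- The data of a basic neighbourhood. -/
structure Stage (E F : Type*) [NormedAddCommGroup E] [NormedSpace ℝ E] [NormedAddCommGroup F]
    [NormedSpace ℝ F] where
  f : SmoothMap E F
  k : ℕ
  ε : E → ℝ
  cont : Continuous ε
  pos : ∀ x, 0 < ε x

theorem exists_stage {S : Set (SmoothMap E F)} (hS : IsOpen S) {f : SmoothMap E F} (hf : f ∈ S)
    (s : Stage E F) : ∃ s' : Stage E F, s'.f = f ∧ s.k < s'.k ∧ (∀ x, s'.ε x ≤ s.ε x / 2) ∧
      closedNhd s'.f s'.k s'.ε ⊆ S := by
  obtain ⟨k, ε, hc, hp, h⟩ := hS f hf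
  refine ⟨⟨f, max k (s.k + 1), fun x => min (ε x / 2) (s.ε x / 2),
    (hc.div_const 2).min (s.cont.div_const 2),
    fun x => lt_min (half_pos (hp x)) (half_pos (s.pos x))⟩, rfl, ?_, ?_, ?_⟩
  · exact (Nat.lt_succ_self _).trans_le (le_max_right _ _)
  · intro x; exact min_le_right _ _
  · intro g hg
    apply h
    intro x j hj
    have h1 := hg x j (hj.trans (le_max_left _ _))
    have h2 : min (ε x / 2) (s.ε x / 2) ≤ ε x / 2 := min_le_left _ _
    have h3 := hp x
    simp only at h1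
    linarith

theorem exists_next {U : Set (SmoothMap E F)} (hU : IsOpen U) (hd : Dense U) (s : Stage E F) :
    ∃ s' : Stage E F, s.k < s'.k ∧ (∀ x, s'.ε x ≤ s.ε x / 2) ∧
      s'.f ∈ basicNhd s.f s.k (fun x => s.ε x / 2) ∧ closedNhd s'.f s'.k s'.ε ⊆ U := by
  have hpos : ∀ x, 0 < s.ε x / 2 := fun x => half_pos (s.pos x)
  have hopen : IsOpen (basicNhd s.f s.k (fun x => s.ε x / 2)) :=
    isOpen_basicNhd s.f s.k (s.cont.div_const 2) hpos
  obtain ⟨f', hf', hf'U⟩ := hd.inter_open_nonempty _ hopen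
    ⟨s.f, mem_basicNhd_self s.f s.k hpos⟩
  obtain ⟨s', hs', h1, h2, h3⟩ := exists_stage hU hf'U s
  exact ⟨s', h1, h2, hs' ▸ hf', h3⟩

variable [CompleteSpace F]

/-- **Baire property** of the Whitney `C^∞` topology. -/
instance : BaireSpace (SmoothMap E F) := by
  refine ⟨fun U hUo hUd => ?_⟩
  rw [dense_iff_inter_open]
  intro V hV hVne
  obtain ⟨f₀, hf₀⟩ := hVne
  obtain ⟨s₀, -, -, hs₀ε, hs₀V⟩ := exists_stage hV hf₀
    (⟨f₀, 0, fun _ => 1, continuous_const, fun _ => one_pos⟩ : Stage E F)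
  choose next hnk hnε hnf hnU using fun (n : ℕ) (s : Stage E F) => exists_next (hUo n) (hUd n) s
  set s : ℕ → Stage E F := fun n => Nat.rec s₀ (fun n s => next n s) n with hs
  have hs0 : s 0 = s₀ := rfl
  have hss : ∀ n, s (n + 1) = next n (s n) := fun n => rfl
  have hk : ∀ n, n ≤ (s n).k := by
    intro n
    induction n with
    | zero => exact Nat.zero_le _
    | succ n ih =>
      have := hnk n (s n)
      rw [← hss] at this
      omega
  have hkmono : Monotone fun n => (s n).k := by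
    apply monotone_nat_of_le_succ
    intro n
    have := hnk n (s n)
    rw [← hss] at this
    exact this.le
  have hε : ∀ n i x, (s (n + i)).ε x ≤ (s n).ε x / 2 ^ i := by
    intro n i x
    induction i with
    | zero => simp
    | succ i ih =>
      have := hnε (n + i) (s (n + i)) x
      rw [← hss] at this
      calc (s (n + (i + 1))).ε x ≤ (s (n + i)).ε x / 2 := this
        _ ≤ ((s n).ε x / 2 ^ i) / 2 := by linarith
        _ = (s n).ε x / 2 ^ (i + 1) := by rw [pow_succ, div_div]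
  have hε0 : ∀ x, (s 0).ε x ≤ 1 := by
    intro x
    have := hs₀ε x
    rw [hs0]
    simp only at this
    linarith
  -- the increments
  set g : ℕ → E → F := fun i y => (s (i + 1)).f.1 y - (s i).f.1 y with hg
  have hgc : ∀ i, ContDiff ℝ ∞ (g i) := fun i => (s (i + 1)).f.sub_contDiff (s i).f
  have hgb : ∀ i, ∀ j ≤ (s i).k, ∀ x, ‖iteratedFDeriv ℝ j (g i) x‖ ≤ (s i).ε x / 2 := by
    intro i j hj x
    have := hnf i (s i)
    rw [← hss] at this
    exact (this x j hj).le
  have hgb' : ∀ n i, ∀ j ≤ (s n).k, ∀ x,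
      ‖iteratedFDeriv ℝ j (g (n + i)) x‖ ≤ (s n).ε x / 2 / 2 ^ i := by
    intro n i j hj x
    have h1 := hgb (n + i) j (hj.trans (hkmono (Nat.le_add_right n i))) x
    have h2 := hε n i x
    calc _ ≤ (s (n + i)).ε x / 2 := h1
      _ ≤ ((s n).ε x / 2 ^ i) / 2 := by linarith
      _ = (s n).ε x / 2 / 2 ^ i := by ring
  have hεle : ∀ n x, (s n).ε x ≤ 1 := by
    intro n x
    have h1 := hε 0 n x
    rw [zero_add] at h1
    refine h1.trans ?_
    rw [div_le_one (by positivity)]
    exact (hε0 x).trans (one_le_pow₀ (by norm_num))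
  have hgu : ∀ n i, ∀ j ≤ (s n).k, ∀ x,
      ‖iteratedFDeriv ℝ j (g (n + i)) x‖ ≤ 1 / 2 / 2 ^ i := by
    intro n i j hj x
    refine (hgb' n i j hj x).trans ?_
    apply div_le_div_of_nonneg_right _ (by positivity)
    linarith [hεle n x]
  have hsum2 : Summable fun i : ℕ => (1:ℝ) / 2 / 2 ^ i := summable_geometric_two' 1
  -- summability of the increments at each point
  have hgsum : ∀ y, Summable fun i => g i y := by
    intro y
    apply Summable.of_norm_bounded hsum2
    intro i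
    have := hgu 0 i 0 (Nat.zero_le _) y
    rw [zero_add, norm_iteratedFDeriv_zero] at this
    exact this
  -- the limit
  have hlim : ContDiff ℝ ∞ fun y => ∑' i, g i y := by
    refine contDiff_tsum_of_eventually (N := (⊤ : ℕ∞)) (v := fun _ i => (1:ℝ) / 2 / 2 ^ i)
      hgc (fun _ _ => hsum2) ?_
    intro k _
    have hfin : {i : ℕ | ¬ k ≤ i}.Finite := (Set.finite_lt_nat k).subset fun i hi => by
      simpa using hi
    refine (Filter.eventually_cofinite.2 hfin).mono ?_
    intro i hi x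
    have h1 := hgb i k (hi.trans (hk i)) x
    have h2 := hε 0 i x
    rw [zero_add] at h2
    have h3 : (s 0).ε x / 2 ^ i ≤ 1 / 2 ^ i := by
      apply div_le_div_of_nonneg_right (hε0 x) (by positivity)
    calc _ ≤ (s i).ε x / 2 := h1
      _ ≤ (1 / 2 ^ i) / 2 := by linarith
      _ = 1 / 2 / 2 ^ i := by ring
  set finf : SmoothMap E F := ⟨fun y => (s 0).f.1 y + ∑' i, g i y, (s 0).f.2.add hlim⟩ with hfinf
  have hdiff : ∀ n y, finf.1 y - (s n).f.1 y = ∑' i, g (n + i) y := by
    intro n y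
    have h1 := (hgsum y).sum_add_tsum_nat_add n
    have h2 : ∑ i ∈ Finset.range n, g i y = (s n).f.1 y - (s 0).f.1 y :=
      Finset.sum_range_sub (fun i => (s i).f.1 y) n
    rw [h2] at h1
    simp only [hfinf]
    rw [← h1]
    have h3 : (fun i => g (i + n) y) = fun i => g (n + i) y := by
      funext i; rw [add_comm]
    rw [h3]
    abel
  have hclosed : ∀ n, finf ∈ closedNhd (s n).f (s n).k (s n).ε := by
    intro n x j hj
    have h1 : (fun y => finf.1 y - (s n).f.1 y) = fun y => ∑' i, g (n + i) y :=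
      funext fun y => hdiff n y
    rw [h1]
    have h2 := iteratedFDeriv_tsum (𝕜 := ℝ) (f := fun i => g (n + i)) (N := ((s n).k : ℕ∞))
      (v := fun _ i => (1:ℝ) / 2 / 2 ^ i)
      (fun i => (hgc (n + i)).of_le (by exact_mod_cast le_top))
      (fun k _ => hsum2)
      (fun k i x hk => hgu n i k (by exact_mod_cast hk) x) (k := j) (by exact_mod_cast hj)
    rw [h2]
    have h3 : Summable fun i : ℕ => (s n).ε x / 2 / 2 ^ i := summable_geometric_two' _
    have h4 : Summable fun i => ‖iteratedFDeriv ℝ j (g (n + i)) x‖ :=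
      Summable.of_nonneg_of_le (fun _ => norm_nonneg _) (fun i => hgb' n i j hj x) h3
    calc ‖∑' i, iteratedFDeriv ℝ j (g (n + i)) x‖
        ≤ ∑' i, ‖iteratedFDeriv ℝ j (g (n + i)) x‖ := norm_tsum_le_tsum_norm h4
      _ ≤ ∑' i : ℕ, (s n).ε x / 2 / 2 ^ i := h4.tsum_le_tsum (fun i => hgb' n i j hj x) h3
      _ = (s n).ε x := tsum_geometric_two' _
  refine ⟨finf, hs₀V (hclosed 0), ?_⟩
  rw [mem_iInter]
  intro n
  have h1 := hclosed (n + 1)
  rw [hss] at h1
  exact hnU n (s n) h1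

end Pool.Agent.Whitney
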